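import Pool.Agent.Helper33.Iso.Goals

/-!
# Packet ISO-INJ
-/

set_option autoImplicit false

open Topology unitInterval
open Pool.Agent.Helper72.Orb
open Pool.Agent.Helper33.Iso

namespace Pool.Agent.Helper8.Iso

universe u v w

/-- A free homotopy followed by a free nullhomotopy. -/
theorem freelyNull_of_homotopy {A : Type*} [TopologicalSpace A] {N : ℕ}
    (l l' : C(Fin N → I, A)) (K : C(I × (Fin N → I), A)) (h0 : ∀ x, K (0, x) = l x)
    (h1 : ∀ x, K (1, x) = l' x)
    (hb : ∀ t, ∀ x ∈ Cube.boundary (Fin N), ∀ y ∈ Cube.boundary (Fin N), K (t, x) = K (t, y))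
    (hn : FreelyNull l') : FreelyNull l := by
  obtain ⟨K', k0, kb, k1⟩ := hn
  let F : ContinuousMap.Homotopy l l' :=
    { toFun := K, continuous_toFun := K.continuous, map_zero_left := h0, map_one_left := h1 }
  let G : ContinuousMap.Homotopy l' (ContinuousMap.const _ (K' (1, fun _ => 0))) :=
    { toFun := K', continuous_toFun := K'.continuous, map_zero_left := k0,
      map_one_left := fun x => k1 x _ }
  refine ⟨(F.trans G).toContinuousMap, fun x => (F.trans G).map_zero_left x, ?_, ?_⟩
  · intro t x hx y hy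
    change (F.trans G) (t, x) = (F.trans G) (t, y)
    rw [ContinuousMap.Homotopy.trans_apply, ContinuousMap.Homotopy.trans_apply]
    by_cases ht : (t : ℝ) ≤ 1 / 2
    · rw [dif_pos ht, dif_pos ht]
      exact hb _ x hx y hy
    · rw [dif_neg ht, dif_neg ht]
      exact kb _ x hx y hy
  · intro x y
    change (F.trans G) (1, x) = (F.trans G) (1, y)
    have e1 := (F.trans G).map_one_left x
    have e2 := (F.trans G).map_one_left y
    exact e1.trans e2.symm

/-- **INJ.** -/
theorem gINJ (hCOLLAR : COLLAR.{w}) (hFREEREL : FREEREL.{w}) (hINJFAR : INJFAR.{u, v, w}) :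
    INJ.{u, v, w} := by
  intro H _ E _ _ V _ _ _ hE hV n hQ g hg y hy hpc N hN l hl hnull
  have hbd : (fun _ => 0 : Fin N → I) ∈ Cube.boundary (Fin N) := ⟨⟨0, hN⟩, Or.inl rfl⟩
  have hla : ∀ x ∈ Cube.boundary (Fin N), l x = l (fun _ => 0) := fun x hx => hl x hx _ hbd
  obtain ⟨c⟩ := PathConnectedSpace.joined (l (fun _ => 0)) (far hV hg y)
  obtain ⟨K, hK0, hKb⟩ := hCOLLAR (Punctured H y) N l _ _ c hla
  let l' : C(Fin N → I, Punctured H y) := ⟨fun x => K (1, x), by fun_prop⟩
  have hl' : ∀ x ∈ Cube.boundary (Fin N), l' x = far hV hg y := by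
    intro x hx
    change K (1, x) = _
    rw [hKb 1 x hx]
    exact c.target
  have h1 : FreelyNull ((snocMap y).comp l') := by
    let K1 : C(I × (Fin N → I), OrbitConf H V (n + 1)) :=
      ⟨fun p => snocMap y (K (σ p.1, p.2)), by fun_prop⟩
    refine freelyNull_of_homotopy _ ((snocMap y).comp l) K1 ?_ ?_ ?_ hnull
    · intro x
      change snocMap y (K (σ 0, x)) = snocMap y (K (1, x))
      rw [unitInterval.symm_zero]
    · intro x
      change snocMap y (K (σ 1, x)) = snocMap y (l x)
      rw [unitInterval.symm_one, hK0]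
    · intro t x hx z hz
      change snocMap y (K (σ t, x)) = snocMap y (K (σ t, z))
      rw [hKb _ x hx, hKb _ z hz]
  have h2 := hFREEREL _ N hN ((snocMap y).comp l') (snocMap y (far hV hg y))
    (by intro x hx; change snocMap y (l' x) = _; rw [hl' x hx]) h1
  obtain ⟨F⟩ := hINJFAR H E V hE hV n hQ g hg y hy N hN l' hl' h2
  have h3 : FreelyNull l' := by
    refine ⟨F.toHomotopy.toContinuousMap, fun x => F.map_zero_left x, ?_, ?_⟩
    · intro t x hx z hz
      change F (t, x) = F (t, z)
      rw [F.eq_fst t hx, F.eq_fst t hz, hl' x hx, hl' z hz]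
    · intro x z
      change F (1, x) = F (1, z)
      have e1 := F.map_one_left x
      have e2 := F.map_one_left z
      exact e1.trans e2.symm
  exact freelyNull_of_homotopy l l' K hK0 (fun _ => rfl)
    (fun t x hx z hz => by rw [hKb t x hx, hKb t z hz]) h3

end Pool.Agent.Helper8.Iso
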